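import Mathlib

/-! # Project OD: module A2, core: the mean of `2 ^ (number of the prime factors of degree ≤ n)` -/

set_option autoImplicit false

open Polynomial Finset

namespace Pool.Agent.D0H87.OD

theorem harm_exp (n : ℕ) : Real.exp (∑ j ∈ Icc 1 n, (1 : ℝ) / j) ≤ 3 * ((n : ℝ) + 1) := by
  have h1 : (∑ j ∈ Icc 1 n, (1 : ℝ) / j) ≤ 1 + Real.log n := by
    have h := harmonic_le_one_add_log n
    rw [harmonic_eq_sum_Icc] at h
    push_cast at h
    simpa [one_div] using h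
  have h2 : Real.exp (1 + Real.log n) ≤ 3 * ((n : ℝ) + 1) := by
    have h3 := Real.exp_one_lt_d9
    rcases Nat.eq_zero_or_pos n with rfl | hn
    · simp only [Nat.cast_zero, Real.log_zero, add_zero]
      linarith
    · have h4 : (1 : ℝ) ≤ n := by exact_mod_cast hn
      rw [Real.exp_add, Real.exp_log (by linarith)]
      nlinarith
  exact (Real.exp_le_exp.2 h1).trans h2

theorem coprime_of_ne {k : Type} [Field k] {P Q : k[X]} (hP : P.Monic) (hP' : Irreducible P)
    (hQ : Q.Monic) (hQ' : Irreducible Q) (h : P ≠ Q) : IsCoprime P Q := by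
  refine (hP'.coprime_iff_not_dvd).2 fun hd => h ?_
  exact eq_of_monic_of_associated hP hQ (hP'.associated_of_dvd hQ' hd)

theorem a2core {k : Type} [Field k] (q : ℝ) (hq : 0 < q) (M : Finset k[X]) (D : ℕ)
    [∀ E : k[X], DecidablePred fun f => E ∣ f]
    (hcard : ∀ E : k[X], E.Monic →
      ((M.filter fun f => E ∣ f).card : ℝ) ≤ q ^ D / q ^ E.natDegree)
    (Pr : ℕ → Finset k[X])
    (hPr : ∀ d P, P ∈ Pr d ↔ P.Monic ∧ Irreducible P ∧ P.natDegree = d)
    (hle : ∀ d : ℕ, 1 ≤ d → (d : ℝ) * (Pr d).card ≤ q ^ d) (n : ℕ) :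
    ∑ f ∈ M, (2 : ℝ) ^ {P ∈ {P : k[X] | P.Monic ∧ Irreducible P ∧ P ∣ f} |
      P.natDegree ≤ n}.ncard ≤ 3 * ((n : ℝ) + 1) * q ^ D := by
  classical
  set PP : Finset k[X] := (Icc 1 n).biUnion Pr with hPP
  have hm : ∀ P, P ∈ PP ↔ P.Monic ∧ Irreducible P ∧ P.natDegree ≤ n := by
    intro P
    rw [hPP, mem_biUnion]
    constructor
    · rintro ⟨j, hj, hP⟩
      obtain ⟨h1, h2, h3⟩ := (hPr _ _).1 hP
      exact ⟨h1, h2, h3 ▸ (mem_Icc.1 hj).2⟩
    · rintro ⟨h1, h2, h3⟩
      exact ⟨P.natDegree, mem_Icc.2 ⟨h2.natDegree_pos, h3⟩, (hPr _ _).2 ⟨h1, h2, rfl⟩⟩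
  have h1 : ∀ f ∈ M, (2 : ℝ) ^ {P ∈ {P : k[X] | P.Monic ∧ Irreducible P ∧ P ∣ f} |
      P.natDegree ≤ n}.ncard ≤ ∑ T ∈ PP.powerset, if (∏ P ∈ T, P) ∣ f then (1 : ℝ) else 0 := by
    intro f _
    have h2 : {P ∈ {P : k[X] | P.Monic ∧ Irreducible P ∧ P ∣ f} | P.natDegree ≤ n} =
        ((PP.filter fun P => P ∣ f : Finset k[X]) : Set k[X]) := by
      ext P
      rw [coe_filter]
      constructor
      · rintro ⟨⟨h1, h2, h3⟩, h4⟩
        exact ⟨(hm P).2 ⟨h1, h2, h4⟩, h3⟩
      · rintro ⟨h1, h2⟩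
        obtain ⟨h3, h4, h5⟩ := (hm P).1 h1
        exact ⟨⟨h3, h4, h2⟩, h5⟩
    rw [h2, Set.ncard_coe_finset]
    have h3 : (2 : ℝ) ^ (PP.filter fun P => P ∣ f).card =
        ∑ T ∈ (PP.filter fun P => P ∣ f).powerset, (1 : ℝ) := by
      rw [sum_const, card_powerset, nsmul_eq_mul, mul_one]
      push_cast
      rfl
    rw [h3]
    calc _ = ∑ T ∈ (PP.filter fun P => P ∣ f).powerset,
          if (∏ P ∈ T, P) ∣ f then (1 : ℝ) else 0 := by
          refine sum_congr rfl fun T hT => ?_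
          have hT' := mem_powerset.1 hT
          rw [if_pos]
          refine Finset.prod_dvd_of_coprime ?_ fun P hP => (mem_filter.1 (hT' hP)).2
          intro P hP Q hQ hne
          obtain ⟨a1, a2, -⟩ := (hm P).1 (mem_filter.1 (hT' hP)).1
          obtain ⟨b1, b2, -⟩ := (hm Q).1 (mem_filter.1 (hT' hQ)).1
          exact coprime_of_ne a1 a2 b1 b2 hne
      _ ≤ _ := sum_le_sum_of_subset_of_nonneg (powerset_mono.2 (filter_subset _ _))
          (fun _ _ _ => by split_ifs <;> norm_num)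
  calc _ ≤ ∑ f ∈ M, ∑ T ∈ PP.powerset, (if (∏ P ∈ T, P) ∣ f then (1 : ℝ) else 0) := sum_le_sum h1
    _ = ∑ T ∈ PP.powerset, ((M.filter fun f => (∏ P ∈ T, P) ∣ f).card : ℝ) := by
        rw [sum_comm]
        refine sum_congr rfl fun T _ => ?_
        rw [sum_boole]
    _ ≤ ∑ T ∈ PP.powerset, q ^ D * ∏ P ∈ T, (q ^ P.natDegree)⁻¹ := by
        refine sum_le_sum fun T hT => ?_
        have hmon : ∀ P ∈ T, P.Monic := fun P hP => ((hm P).1 (mem_powerset.1 hT hP)).1
        have h4 := hcard _ (monic_prod_of_monic T (fun P => P) hmon)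
        rw [natDegree_prod_of_monic T (fun P => P) hmon] at h4
        have h5 : ((M.filter fun f => (∏ P ∈ T, P) ∣ f).card : ℝ) ≤
            q ^ D / q ^ ∑ P ∈ T, P.natDegree := by
          refine le_trans (le_of_eq ?_) h4
          congr!
        refine h5.trans (le_of_eq ?_)
        rw [prod_inv_distrib, prod_pow_eq_pow_sum, div_eq_mul_inv]
    _ = q ^ D * ∏ P ∈ PP, (1 + (q ^ P.natDegree)⁻¹) := by
        rw [← mul_sum, prod_one_add]
    _ ≤ q ^ D * Real.exp (∑ P ∈ PP, (q ^ P.natDegree)⁻¹) := by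
        rw [Real.exp_sum]
        refine mul_le_mul_of_nonneg_left ?_ (by positivity)
        refine prod_le_prod (fun P _ => by positivity) fun P _ => ?_
        rw [add_comm]
        exact Real.add_one_le_exp _
    _ ≤ q ^ D * (3 * ((n : ℝ) + 1)) := by
        refine mul_le_mul_of_nonneg_left ?_ (by positivity)
        refine le_trans (Real.exp_le_exp.2 ?_) (harm_exp n)
        rw [hPP, sum_biUnion]
        · refine sum_le_sum fun j hj => ?_
          have hj1 : 1 ≤ j := (mem_Icc.1 hj).1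
          have h6 : ∑ P ∈ Pr j, (q ^ P.natDegree)⁻¹ = ((Pr j).card : ℝ) * (q ^ j)⁻¹ := by
            rw [sum_congr rfl fun P hP => by rw [((hPr _ _).1 hP).2.2], sum_const, nsmul_eq_mul]
          have h7 := hle j hj1
          have hj0 : (0 : ℝ) < j := by exact_mod_cast hj1
          rw [h6, ← div_eq_mul_inv, div_le_div_iff₀ (by positivity) hj0]
          linarith
        · intro i _ j _ hne
          rw [Function.onFun, disjoint_left]
          intro P hP hP'
          exact hne (((hPr _ _).1 hP).2.2.symm.trans ((hPr _ _).1 hP').2.2)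
    _ = _ := by ring

end Pool.Agent.D0H87.OD
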