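import Pool.Agent.D0H99.OD.Stm6
import Pool.Agent.D0H87.OD.A2Core

/-! # Project OD: module A2 -/

set_option autoImplicit false

open Polynomial Finset

namespace Pool.Agent.D0H87.OD

open Pool.Agent.D0H99.OD

theorem t_A2 : S_A0 → S_A2 := by
  intro h0 k _ _ hk n D
  classical
  obtain ⟨h1, h2, h3⟩ := h0 k D
  have hq0 : (0 : ℝ) < (Fintype.card k : ℝ) := by exact_mod_cast Fintype.card_pos
  exact a2core (Fintype.card k : ℝ) hq0 (MO k D) D (by
    intro E hE
    have h4 := h3 E hE
    have h5 : (((MO k D).filter fun f => E ∣ f).card : ℝ) =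
        ((if E.natDegree ≤ D then Fintype.card k ^ (D - E.natDegree) else 0 : ℕ) : ℝ) := by
      rw [← h4]
    rw [h5]
    split_ifs with h
    · rw [le_div_iff₀ (by positivity)]
      push_cast
      rw [← pow_add, Nat.sub_add_cancel h]
    · push_cast
      positivity)
    (Pool.Agent.Y164.PS.Pr k) (fun d P => Pool.Agent.Y164.PS.mem_Pr)
    (fun d hd => Pool.Agent.Y164.PS.card_Pr_le hk d hd) n

end Pool.Agent.D0H87.OD
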